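import Mathlib
import Pool.Agent.H274Z.HC.Defs
import Pool.Agent.H274Z.HC.Meas

set_option autoImplicit false

namespace Pool.Agent.Results.MP_38bc51_pr.AAboveOneThird

open Pool.Agent.H274Z.HC

/-- The maximal density of stationary 2-dependent hard-core processes on the integers is at least
60/169, which is larger than 0.355 and so larger than 1/3. -/
theorem result : (60 / 169 : ℝ) ≤ critDensity 2 :=
  crit_two

end Pool.Agent.Results.MP_38bc51_pr.AAboveOneThird
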